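import Pool.Agent.Helper49.LC.St

/-!
# Project LC, module DF1: the family of suspensions
-/

set_option autoImplicit false

open scoped ContDiff

namespace Pool.Agent.Helper70.LC

open Pool.Agent.Helper14.LK Pool.Agent.Helper49.LC
open Pool.Agent.Helper14.LE (hd lt mk cc dd hd_mk lt_mk mk_hd_lt ext_hd_lt inner_eq norm_hd_le abs_lt_le
  norm_le_add)

/-! ### the function `s` -/

/-- smooth function equal to `|u|` for `1 ≤ |u|` -/
private noncomputable def sf (u : ℝ) : ℝ := u * (2 * Real.smoothTransition ((u + 1) / 2) - 1)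

private theorem sf_smooth : ContDiff ℝ ∞ sf := by
  unfold sf
  have h1 : ContDiff ℝ ∞ (fun u : ℝ => Real.smoothTransition ((u + 1) / 2)) :=
    Real.smoothTransition.contDiff.comp (by fun_prop)
  exact contDiff_id.mul ((contDiff_const.mul h1).sub contDiff_const)

private theorem sf_ge {u : ℝ} (h : 1 ≤ u) : sf u = u := by
  unfold sf
  rw [Real.smoothTransition.one_of_one_le (by linarith)]
  ring

private theorem sf_le {u : ℝ} (h : u ≤ -1) : sf u = -u := by
  unfold sf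
  rw [Real.smoothTransition.zero_of_nonpos (by linarith)]
  ring

private theorem sf_abs {u : ℝ} (h : |u| ≤ 1) : |sf u| ≤ 1 := by
  unfold sf
  rw [abs_mul]
  have h0 := Real.smoothTransition.nonneg ((u + 1) / 2)
  have h1 := Real.smoothTransition.le_one ((u + 1) / 2)
  have h2 : |2 * Real.smoothTransition ((u + 1) / 2) - 1| ≤ 1 := by
    rw [abs_le]
    constructor <;> linarith
  calc |u| * |2 * Real.smoothTransition ((u + 1) / 2) - 1| ≤ 1 * 1 :=
        mul_le_mul h h2 (abs_nonneg _) zero_le_one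
    _ = 1 := one_mul 1

private theorem sf_deriv_smooth : ContDiff ℝ ∞ (deriv sf) :=
  (contDiff_infty_iff_deriv.1 sf_smooth).2

private theorem sf_has (u : ℝ) : HasDerivAt sf (deriv sf u) u :=
  (contDiff_infty_iff_deriv.1 sf_smooth).1.differentiableAt.hasDerivAt

private theorem sf_has' (u : ℝ) : HasDerivAt (deriv sf) (deriv (deriv sf) u) u :=
  (contDiff_infty_iff_deriv.1 sf_deriv_smooth).1.differentiableAt.hasDerivAt

/-! ### the fold `σ` -/

private noncomputable def sg (t c : ℝ) : ℝ := t - sf (c - t)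

private noncomputable def sg' (t c : ℝ) : ℝ := -deriv sf (c - t)

private theorem sg_has (t c : ℝ) : HasDerivAt (sg t) (sg' t c) c := by
  have h1 : HasDerivAt (fun c => c - t) 1 c := (hasDerivAt_id c).sub_const t
  have h2 : HasDerivAt (fun c => sf (c - t)) (deriv sf (c - t) * 1) c :=
    HasDerivAt.comp (h₂ := sf) (h := fun c => c - t) c (sf_has (c - t)) h1
  have h3 := h2.const_sub t
  rw [mul_one] at h3
  exact h3

private theorem sg_has' (t c : ℝ) : HasDerivAt (sg' t) (-deriv (deriv sf) (c - t)) c := by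
  have h1 : HasDerivAt (fun c => c - t) 1 c := (hasDerivAt_id c).sub_const t
  have h2 : HasDerivAt (fun c => deriv sf (c - t)) (deriv (deriv sf) (c - t) * 1) c :=
    HasDerivAt.comp (h₂ := deriv sf) (h := fun c => c - t) c (sf_has' (c - t)) h1
  have h3 := h2.neg
  rw [mul_one] at h3
  exact h3

private theorem sg_le {t c : ℝ} (h : c ≤ t - 1) : sg t c = c := by
  unfold sg
  rw [sf_le (by linarith)]
  ring

private theorem sg_ge {t c : ℝ} (h : t + 1 ≤ c) : sg t c = 2 * t - c := by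
  unfold sg
  rw [sf_ge (by linarith)]
  ring

private theorem sg_abs {t c : ℝ} (h1 : t - 1 ≤ c) (h2 : c ≤ t + 1) : |sg t c - t| ≤ 1 := by
  have h3 : |sf (c - t)| ≤ 1 := sf_abs (by rw [abs_le]; constructor <;> linarith)
  unfold sg
  rw [abs_le] at h3 ⊢
  constructor <;> linarith

private theorem sg_deriv_le {t c : ℝ} (h : c ≤ t - 1) : deriv (sg t) c = 1 := by
  rw [(sg_has t c).deriv]
  have h1 : HasDerivWithinAt (sg t) (sg' t c) (Set.Iic (t - 1)) c := (sg_has t c).hasDerivWithinAt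
  have h2 : HasDerivWithinAt (sg t) 1 (Set.Iic (t - 1)) c :=
    (hasDerivAt_id c).hasDerivWithinAt.congr (fun y hy => sg_le hy) (sg_le h)
  exact (uniqueDiffOn_Iic (t - 1) c h).eq_deriv _ h1 h2

private theorem sg_deriv_ge {t c : ℝ} (h : t + 1 ≤ c) : deriv (sg t) c = -1 := by
  rw [(sg_has t c).deriv]
  have h1 : HasDerivWithinAt (sg t) (sg' t c) (Set.Ici (t + 1)) c := (sg_has t c).hasDerivWithinAt
  have h2 : HasDerivWithinAt (sg t) (-1) (Set.Ici (t + 1)) c :=
    ((hasDerivAt_id c).const_sub (2 * t)).hasDerivWithinAt.congr (fun y hy => sg_ge hy) (sg_ge h)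
  exact (uniqueDiffOn_Ici (t + 1) c h).eq_deriv _ h1 h2

section suspension

variable {k : ℕ}

private noncomputable def l1 : WW (k + 1) →L[ℝ] ℝ :=
  lt.comp (ContinuousLinearMap.fst ℝ (EE (k + 1)) (EE (k + 1)))

private noncomputable def l2 : WW (k + 1) →L[ℝ] ℝ :=
  lt.comp (ContinuousLinearMap.snd ℝ (EE (k + 1)) (EE (k + 1)))

/-- the suspension -/
private noncomputable def DD (J : EE (k + 1) → WW (k + 1)) (σ σ' : ℝ → ℝ) (x : EE (k + 1)) :
    WW (k + 1) :=
  (mk (hd (J (mk (hd x, σ (lt x)))).1, lt x),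
    mk (hd (J (mk (hd x, σ (lt x)))).2, σ' (lt x) * lt (J (mk (hd x, σ (lt x)))).2))

private theorem DD_fderiv (J : EE (k + 1) → WW (k + 1)) (hJ : Differentiable ℝ J)
    (σ σ' σ'' : ℝ → ℝ) (h1 : ∀ c, HasDerivAt σ (σ' c) c) (h2 : ∀ c, HasDerivAt σ' (σ'' c) c)
    (hD : Differentiable ℝ (DD J σ σ')) (x u : EE (k + 1)) :
    fderiv ℝ (DD J σ σ') x u =
      (mk (hd (fderiv ℝ J (mk (hd x, σ (lt x))) (mk (hd u, σ' (lt x) * lt u))).1, lt u),
        mk (hd (fderiv ℝ J (mk (hd x, σ (lt x))) (mk (hd u, σ' (lt x) * lt u))).2,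
          σ'' (lt x) * lt u * lt (J (mk (hd x, σ (lt x)))).2 +
            σ' (lt x) * lt (fderiv ℝ J (mk (hd x, σ (lt x))) (mk (hd u, σ' (lt x) * lt u))).2)) := by
  obtain ⟨c, hc⟩ : ∃ c : ℝ → EE (k + 1), c = fun s => x + s • u := ⟨_, rfl⟩
  have hc0 : c 0 = x := by rw [hc]; simp
  have hcd : HasDerivAt c u 0 := by
    rw [hc]
    have := ((hasDerivAt_id (0 : ℝ)).smul_const u).const_add x
    simpa using this
  have hA : HasDerivAt (fun s => DD J σ σ' (c s)) (fderiv ℝ (DD J σ σ') x u) 0 := by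
    have := (hD (c 0)).hasFDerivAt.comp_hasDerivAt 0 hcd
    rw [hc0] at this
    exact this
  have hl : HasDerivAt (fun s => lt (c s)) (lt u) 0 :=
    (lt (k := k)).hasFDerivAt.comp_hasDerivAt 0 hcd
  have hh : HasDerivAt (fun s => hd (c s)) (hd u) 0 :=
    (hd (k := k)).hasFDerivAt.comp_hasDerivAt 0 hcd
  have hs : HasDerivAt (fun s => σ (lt (c s))) (σ' (lt x) * lt u) 0 := by
    have h3 := h1 (lt (c 0))
    have := HasDerivAt.comp (0 : ℝ) h3 hl
    rw [hc0] at this
    exact this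
  have hs' : HasDerivAt (fun s => σ' (lt (c s))) (σ'' (lt x) * lt u) 0 := by
    have h3 := h2 (lt (c 0))
    have := HasDerivAt.comp (0 : ℝ) h3 hl
    rw [hc0] at this
    exact this
  have hm : HasDerivAt (fun s => (mk (hd (c s), σ (lt (c s))) : EE (k + 1)))
      (mk (hd u, σ' (lt x) * lt u)) 0 :=
    (mk (k := k)).hasFDerivAt.comp_hasDerivAt 0 (hh.prodMk hs)
  have hJc : HasDerivAt (fun s => J (mk (hd (c s), σ (lt (c s)))))
      (fderiv ℝ J (mk (hd x, σ (lt x))) (mk (hd u, σ' (lt x) * lt u))) 0 := by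
    have := (hJ (mk (hd (c 0), σ (lt (c 0))))).hasFDerivAt.comp_hasDerivAt 0 hm
    rw [hc0] at this
    exact this
  have hJ1 : HasDerivAt (fun s => hd (J (mk (hd (c s), σ (lt (c s))))).1)
      (hd (fderiv ℝ J (mk (hd x, σ (lt x))) (mk (hd u, σ' (lt x) * lt u))).1) 0 :=
    (cc (k := k)).hasFDerivAt.comp_hasDerivAt 0 hJc
  have hJ2 : HasDerivAt (fun s => hd (J (mk (hd (c s), σ (lt (c s))))).2)
      (hd (fderiv ℝ J (mk (hd x, σ (lt x))) (mk (hd u, σ' (lt x) * lt u))).2) 0 :=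
    (dd (k := k)).hasFDerivAt.comp_hasDerivAt 0 hJc
  have hJ3 : HasDerivAt (fun s => lt (J (mk (hd (c s), σ (lt (c s))))).2)
      (lt (fderiv ℝ J (mk (hd x, σ (lt x))) (mk (hd u, σ' (lt x) * lt u))).2) 0 :=
    (l2 (k := k)).hasFDerivAt.comp_hasDerivAt 0 hJc
  have hJ4 := hs'.mul hJ3
  have hP : HasDerivAt (fun s => (mk (hd (J (mk (hd (c s), σ (lt (c s))))).1, lt (c s)) :
      EE (k + 1))) _ 0 := (mk (k := k)).hasFDerivAt.comp_hasDerivAt 0 (hJ1.prodMk hl)
  have hQ : HasDerivAt (fun s => (mk (hd (J (mk (hd (c s), σ (lt (c s))))).2,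
      σ' (lt (c s)) * lt (J (mk (hd (c s), σ (lt (c s))))).2) :
      EE (k + 1))) _ 0 := (mk (k := k)).hasFDerivAt.comp_hasDerivAt 0 (hJ2.prodMk hJ4)
  have hB := hP.prodMk hQ
  have := hA.unique hB
  rw [this]
  simp only [hc0]

end suspension

theorem hDF1 : StDF1 := by
  intro k ι R hK hline hproj Θ Θi hΘ hΘi hleft hright hlt hfarl hfarh T hT
  obtain ⟨J, hJ⟩ : ∃ J : EE (k + 1) → WW (k + 1), J = fun x => ι (Θ x) := ⟨_, rfl⟩
  have hJx : ∀ x, J x = ι (Θ x) := fun x => by rw [hJ]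
  have hRpos := hK.pos
  have hJs : ContDiff ℝ ∞ J := by
    rw [hJ]
    exact hK.sm.comp hΘ
  have hJdiff : Differentiable ℝ J := hJs.differentiable (by simp)
  have hιd : Differentiable ℝ ι := hK.sm.differentiable (by simp)
  have hΘd : Differentiable ℝ Θ := hΘ.differentiable (by simp)
  have hΘid : Differentiable ℝ Θi := hΘi.differentiable (by simp)
  have hJf : ∀ x u, fderiv ℝ J x u = fderiv ℝ ι (Θ x) (fderiv ℝ Θ x u) := by
    intro x u
    have h1 : HasFDerivAt J ((fderiv ℝ ι (Θ x)).comp (fderiv ℝ Θ x)) x := by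
      rw [hJ]
      exact (hιd (Θ x)).hasFDerivAt.comp x (hΘd x).hasFDerivAt
    rw [h1.fderiv]
    rfl
  have hΘinj : ∀ x u, fderiv ℝ Θ x u = 0 → u = 0 := by
    intro x u hu
    have h1 : HasFDerivAt (fun y => Θi (Θ y)) ((fderiv ℝ Θi (Θ x)).comp (fderiv ℝ Θ x)) x :=
      (hΘid (Θ x)).hasFDerivAt.comp x (hΘd x).hasFDerivAt
    have h2 : (fun y => Θi (Θ y)) = fun y => y := funext hleft
    rw [h2] at h1
    have h3 := h1.unique (hasFDerivAt_id x)
    have h4 := congrArg (fun L => L u) h3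
    simp only [ContinuousLinearMap.comp_apply, hu, map_zero, ContinuousLinearMap.id_apply] at h4
    exact h4.symm
  have hJiso : ∀ x u v, om (fderiv ℝ J x u) (fderiv ℝ J x v) = 0 := by
    intro x u v
    rw [hJf, hJf]
    exact hK.iso _ _ _
  have hJline : ∀ x u, (fderiv ℝ J x u).1 = 0 → hd (fderiv ℝ J x u).2 = 0 → u = 0 := by
    intro x u h1 h2
    rw [hJf] at h1 h2
    exact hΘinj x u (hline _ _ h1 h2)
  have hJproj : ∀ x x', (J x).1 = (J x').1 → hd (J x).2 = hd (J x').2 → x = x' := by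
    intro x x' h1 h2
    rw [hJx, hJx] at h1 h2
    have h3 := hproj _ _ h1 h2
    rw [← hleft x, h3, hleft]
  have hJlt : ∀ x, lt (J x).1 = lt x := fun x => by rw [hJx]; exact hlt x
  have hJltd : ∀ x u, lt (fderiv ℝ J x u).1 = lt u := by
    intro x u
    have h1 : HasFDerivAt (fun y => lt (J y).1) ((l1 (k := k)).comp (fderiv ℝ J x)) x :=
      (l1 (k := k)).hasFDerivAt.comp x (hJdiff x).hasFDerivAt
    have h2 : (fun y => lt (J y).1) = fun y => lt y := funext hJlt
    rw [h2] at h1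
    have h3 := h1.unique (lt (k := k)).hasFDerivAt
    have h4 := congrArg (fun L => L u) h3
    exact h4
  have hJstd : ∀ x, lt x ≤ -(R + 1) ∨ R + 1 ≤ ‖hd x‖ → J x = (x, 0) := by
    intro x hx
    have h1 : Θ x = x := by
      rcases hx with hx | hx
      · exact hfarl x hx
      · exact hfarh x hx
    rw [hJx, h1]
    refine hK.far x ?_
    rw [sub_zero]
    rcases hx with hx | hx
    · have h2 := abs_lt_le x
      have h3 := neg_le_abs (lt x)
      linarith
    · have h2 := norm_hd_le x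
      linarith
  -- the suspension is standard where `J` is
  have hDstd : ∀ (σ σ' : ℝ → ℝ) (x : EE (k + 1)), (σ (lt x) ≤ -(R + 1) ∨ R + 1 ≤ ‖hd x‖) →
      DD J σ σ' x = (x, 0) := by
    intro σ σ' x hx
    have h1 : J (mk (hd x, σ (lt x))) = (mk (hd x, σ (lt x)), 0) := by
      apply hJstd
      rw [lt_mk, hd_mk]
      exact hx
    unfold DD
    rw [h1]
    simp only [hd_mk, mk_hd_lt, map_zero, mul_zero]
    have h2 : (mk ((0 : EE k), (0 : ℝ)) : EE (k + 1)) = 0 := map_zero mk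
    rw [h2]
  obtain ⟨D, hDdef⟩ : ∃ D : ℝ → EE (k + 1) → WW (k + 1),
      D = fun r => DD J (sg (T * (2 * r - 1))) (sg' (T * (2 * r - 1))) := ⟨_, rfl⟩
  have hDr : ∀ r, D r = DD J (sg (T * (2 * r - 1))) (sg' (T * (2 * r - 1))) := fun r => by rw [hDdef]
  have hDs : ContDiff ℝ ∞ (Function.uncurry D) := by
    have e1 : ContDiff ℝ ∞ (fun p : ℝ × EE (k + 1) => lt p.2) :=
      (lt (k := k)).contDiff.comp contDiff_snd
    have e2 : ContDiff ℝ ∞ (fun p : ℝ × EE (k + 1) => hd p.2) :=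
      (hd (k := k)).contDiff.comp contDiff_snd
    have e3 : ContDiff ℝ ∞ (fun p : ℝ × EE (k + 1) => T * (2 * p.1 - 1)) :=
      contDiff_const.mul ((contDiff_const.mul contDiff_fst).sub contDiff_const)
    have e4 : ContDiff ℝ ∞ (fun p : ℝ × EE (k + 1) => sg (T * (2 * p.1 - 1)) (lt p.2)) :=
      e3.sub (sf_smooth.comp (e1.sub e3))
    have e5 : ContDiff ℝ ∞ (fun p : ℝ × EE (k + 1) => sg' (T * (2 * p.1 - 1)) (lt p.2)) :=
      (sf_deriv_smooth.comp (e1.sub e3)).neg
    have e6 : ContDiff ℝ ∞ (fun p : ℝ × EE (k + 1) =>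
        (mk (hd p.2, sg (T * (2 * p.1 - 1)) (lt p.2)) : EE (k + 1))) :=
      (mk (k := k)).contDiff.comp (e2.prodMk e4)
    have e7 : ContDiff ℝ ∞ (fun p : ℝ × EE (k + 1) =>
        J (mk (hd p.2, sg (T * (2 * p.1 - 1)) (lt p.2)))) := hJs.comp e6
    have e8 : ContDiff ℝ ∞ (fun p : ℝ × EE (k + 1) =>
        hd (J (mk (hd p.2, sg (T * (2 * p.1 - 1)) (lt p.2)))).1) :=
      (cc (k := k)).contDiff.comp e7
    have e9 : ContDiff ℝ ∞ (fun p : ℝ × EE (k + 1) =>
        hd (J (mk (hd p.2, sg (T * (2 * p.1 - 1)) (lt p.2)))).2) :=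
      (dd (k := k)).contDiff.comp e7
    have e10 : ContDiff ℝ ∞ (fun p : ℝ × EE (k + 1) =>
        lt (J (mk (hd p.2, sg (T * (2 * p.1 - 1)) (lt p.2)))).2) :=
      (l2 (k := k)).contDiff.comp e7
    have e11 : ContDiff ℝ ∞ (fun p : ℝ × EE (k + 1) =>
        (mk (hd (J (mk (hd p.2, sg (T * (2 * p.1 - 1)) (lt p.2)))).1, lt p.2) : EE (k + 1))) :=
      (mk (k := k)).contDiff.comp (e8.prodMk e1)
    have e12 : ContDiff ℝ ∞ (fun p : ℝ × EE (k + 1) =>
        (mk (hd (J (mk (hd p.2, sg (T * (2 * p.1 - 1)) (lt p.2)))).2,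
          sg' (T * (2 * p.1 - 1)) (lt p.2) *
            lt (J (mk (hd p.2, sg (T * (2 * p.1 - 1)) (lt p.2)))).2) : EE (k + 1))) :=
      (mk (k := k)).contDiff.comp (e9.prodMk (e5.mul e10))
    rw [hDdef]
    exact e11.prodMk e12
  have hDd : ∀ r, Differentiable ℝ (D r) := by
    intro r
    have h1 : ContDiff ℝ ∞ (fun x : EE (k + 1) => Function.uncurry D (r, x)) :=
      hDs.comp (contDiff_const.prodMk contDiff_id)
    exact h1.differentiable (by simp)
  have hfd : ∀ r x u, fderiv ℝ (D r) x u =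
      (mk (hd (fderiv ℝ J (mk (hd x, sg (T * (2 * r - 1)) (lt x)))
        (mk (hd u, sg' (T * (2 * r - 1)) (lt x) * lt u))).1, lt u),
        mk (hd (fderiv ℝ J (mk (hd x, sg (T * (2 * r - 1)) (lt x)))
          (mk (hd u, sg' (T * (2 * r - 1)) (lt x) * lt u))).2,
          -deriv (deriv sf) (lt x - T * (2 * r - 1)) * lt u *
            lt (J (mk (hd x, sg (T * (2 * r - 1)) (lt x)))).2 +
            sg' (T * (2 * r - 1)) (lt x) * lt (fderiv ℝ J (mk (hd x, sg (T * (2 * r - 1)) (lt x)))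
              (mk (hd u, sg' (T * (2 * r - 1)) (lt x) * lt u))).2)) := fun r x u => by
    rw [hDr r]
    exact DD_fderiv J hJdiff _ _ _ (sg_has _) (sg_has' _) (by rw [← hDr r]; exact hDd r) x u
  have hmk0 : ∀ (a : EE k) (b : ℝ), (mk (a, b) : EE (k + 1)) = 0 → a = 0 ∧ b = 0 := by
    intro a b h
    constructor
    · have := congrArg (fun x => hd x) h
      simpa only [hd_mk, map_zero] using this
    · have := congrArg (fun x => lt x) h
      simpa only [lt_mk, map_zero] using this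
  have hmkinj : ∀ (a a' : EE k) (b b' : ℝ), (mk (a, b) : EE (k + 1)) = mk (a', b') →
      a = a' ∧ b = b' := by
    intro a a' b b' h
    constructor
    · have := congrArg (fun x => hd x) h
      simpa only [hd_mk] using this
    · have := congrArg (fun x => lt x) h
      simpa only [lt_mk] using this
  refine ⟨D, sg T, (R + 1) + (3 * T + (R + 1) + 1), hDs, ?_, ?_, ?_, ?_, ?_, ?_, ?_, ?_, ?_⟩
  · -- isotropic
    intro r _ x u v
    rw [hfd r x u, hfd r x v]
    obtain ⟨x', hx'⟩ : ∃ x' : EE (k + 1), x' = mk (hd x, sg (T * (2 * r - 1)) (lt x)) := ⟨_, rfl⟩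
    obtain ⟨p, hp⟩ : ∃ p : ℝ, p = sg' (T * (2 * r - 1)) (lt x) := ⟨_, rfl⟩
    rw [← hx', ← hp]
    have h1 := hJiso x' (mk (hd u, p * lt u)) (mk (hd v, p * lt v))
    have h2 := hJltd x' (mk (hd u, p * lt u))
    have h3 := hJltd x' (mk (hd v, p * lt v))
    rw [lt_mk] at h2 h3
    unfold om at h1 ⊢
    rw [inner_eq, inner_eq, h2, h3] at h1
    simp only [inner_eq, hd_mk, lt_mk]
    linear_combination h1
  · -- immersive
    intro r _ x u hu
    rw [hfd r x u] at hu
    obtain ⟨x', hx'⟩ : ∃ x' : EE (k + 1), x' = mk (hd x, sg (T * (2 * r - 1)) (lt x)) := ⟨_, rfl⟩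
    obtain ⟨p, hp⟩ : ∃ p : ℝ, p = sg' (T * (2 * r - 1)) (lt x) := ⟨_, rfl⟩
    rw [← hx', ← hp] at hu
    obtain ⟨h1, h2⟩ := Prod.mk.inj hu
    obtain ⟨h3, h4⟩ := hmk0 _ _ h1
    obtain ⟨h5, _⟩ := hmk0 _ _ h2
    have h6 := hJltd x' (mk (hd u, p * lt u))
    rw [lt_mk, h4, mul_zero] at h6
    rw [h4, mul_zero] at h3 h5
    have h7 : (mk (hd u, (0 : ℝ)) : EE (k + 1)) = 0 := by
      refine hJline x' _ (ext_hd_lt ?_ ?_) h5
      · rw [h3, map_zero]
      · rw [h6, map_zero]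
    obtain ⟨h8, _⟩ := hmk0 _ _ h7
    exact ext_hd_lt (by rw [h8, map_zero]) (by rw [h4, map_zero])
  · -- injective
    intro r _ x y hxy
    rw [hDr r] at hxy
    obtain ⟨σ, hσ⟩ : ∃ σ, σ = sg (T * (2 * r - 1)) := ⟨_, rfl⟩
    rw [← hσ] at hxy
    unfold DD at hxy
    obtain ⟨h1, h2⟩ := Prod.mk.inj hxy
    obtain ⟨h3, h4⟩ := hmkinj _ _ _ _ h1
    obtain ⟨h5, _⟩ := hmkinj _ _ _ _ h2
    have h6 : (J (mk (hd x, σ (lt x)))).1 = (J (mk (hd y, σ (lt y)))).1 := by
      refine ext_hd_lt h3 ?_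
      rw [hJlt, hJlt, lt_mk, lt_mk, h4]
    have h7 := hJproj _ _ h6 h5
    obtain ⟨h8, _⟩ := hmkinj _ _ _ _ h7
    exact ext_hd_lt h8 h4
  · -- standard at infinity
    rintro r ⟨hr0, hr1⟩ x hx
    rw [hDr r]
    apply hDstd
    by_cases hh : R + 1 ≤ ‖hd x‖
    · exact Or.inr hh
    · left
      have h1 := norm_le_add x
      have h2 : 3 * T + (R + 1) + 1 ≤ |lt x| := by linarith
      have h3 : -T ≤ T * (2 * r - 1) := by nlinarith
      have h4 : T * (2 * r - 1) ≤ T := by nlinarith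
      rcases le_abs.1 h2 with h5 | h5
      · rw [sg_ge (by linarith)]
        linarith
      · rw [sg_le (by linarith)]
        linarith
  · -- r = 0
    intro x
    rw [hDr 0]
    apply hDstd
    left
    have e : T * (2 * (0 : ℝ) - 1) = -T := by ring
    rw [e]
    rcases le_total (lt x) (-T - 1) with h | h
    · rw [sg_le h]
      linarith
    · rcases le_total (lt x) (-T + 1) with h' | h'
      · have h3 := sg_abs h h'
        rw [abs_le] at h3
        linarith
      · rw [sg_ge h']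
        linarith
  · intro c hc
    exact ⟨sg_le hc, sg_deriv_le hc⟩
  · intro c hc
    exact ⟨sg_ge hc, sg_deriv_ge hc⟩
  · intro c h1 h2
    have h3 := sg_abs h1 h2
    rw [abs_le] at h3
    linarith
  · intro x
    rw [hDr 1]
    have e : T * (2 * (1 : ℝ) - 1) = T := by ring
    rw [e, (sg_has T (lt x)).deriv]
    unfold DD
    simp only [hJx]

end Pool.Agent.Helper70.LC
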